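import Pool.Agent.Helper72.AI.Stmts

/-!
Packet S_conv of MP_870acd_co (helper72): triangles in ellipses.
-/

set_option autoImplicit false

namespace Pool.Agent.Helper32.AI

open AffInc

theorem pf_S_conv (h1 : AffInc.S_disc) : AffInc.S_conv := by
  intro X Y Z hZ hsub
  obtain ⟨hdisc, harea⟩ := h1
  set W : Fin 3 → ℝ × ℝ := fun i => T (invT Z) (T X (Y i)) with hW
  have hS0 : ∀ i, T Y (S0 i) = Y i := by
    intro i
    fin_cases i <;> (rw [T_def]; simp [S0])
  have hS0m : ∀ i, S0 i ∈ Tri := by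
    intro i
    rw [Tri_eq]
    fin_cases i <;> simp [S0]
  have hWd : ∀ i, W i ∈ Disc := by
    intro i
    have h2 : T X (Y i) ∈ T Z '' Disc := by
      apply hsub
      exact ⟨Y i, ⟨S0 i, hS0m i, hS0 i⟩, rfl⟩
    obtain ⟨d, hd, hde⟩ := h2
    have h3 : W i = d := by
      change T (invT Z) (T X (Y i)) = d
      rw [← hde, invT_T Z hZ]
    rw [h3]; exact hd
  have hb := hdisc W hWd
  have hdet : det3 W = det3 (invT Z) * (det3 X * det3 Y) := by
    rw [hW, det3_T (invT Z) (fun i => T X (Y i)), det3_T]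
  have hinv := det3_invT Z hZ
  have hmul : |det3 Z| * |det3 W| = |det3 X| * |det3 Y| := by
    rw [← abs_mul, hdet, ← mul_assoc, hinv, one_mul, abs_mul]
  rw [area_T, area_T, area_T, area_Tri, harea]
  have hpi := Real.pi_pos
  have hk : kap * (|det3 Z| * Real.pi) = |det3 Z| * (3 * Real.sqrt 3 / 4) := by
    unfold kap
    field_simp
  rw [hk]
  have h4 : |det3 X| * (|det3 Y| * (1 / 2)) = |det3 Z| * |det3 W| / 2 := by
    rw [hmul]; ring
  rw [h4]
  have h5 := mul_le_mul_of_nonneg_left hb (abs_nonneg (det3 Z))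
  linarith

end Pool.Agent.Helper32.AI
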